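import Mathlib
import Pool.Agent.H466R2.LVAsym

/-!
# A lower bound for the loss in Montgomery's large values conjecture (MP_71ac24_nt)

For all large `N` and all `T ≥ N` there are coefficients bounded by `1` and a `1`-separated set
`S ⊂ [0, T]` with at most `N` points such that the sum of `|D(t)|^2` over `S` is at least
`δ * min(T / N, exp(c log N / log log N)) * (N + |S|) * N`.
-/

set_option autoImplicit false

namespace Pool.Agent.Results.MP_71ac24_nt.LossFactor

open Filter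

theorem result :
    ∃ c δ : ℝ, 0 < c ∧ 0 < δ ∧ ∃ N₀ : ℕ, ∀ N : ℕ, N₀ ≤ N → ∀ T : ℝ, (N : ℝ) ≤ T →
      ∃ a : ℕ → ℂ, (∀ n, ‖a n‖ ≤ 1) ∧
        ∃ S : Finset ℝ, (∀ t ∈ S, 0 ≤ t ∧ t ≤ T) ∧
          (∀ t ∈ S, ∀ u ∈ S, t ≠ u → 1 ≤ |t - u|) ∧
          (S.card : ℝ) ≤ (N : ℝ) ∧
          δ * min (T / N) (Real.exp (c * Real.log N / Real.log (Real.log N))) *
              (((N : ℝ) + (S.card : ℝ)) * (N : ℝ)) ≤
            ∑ t ∈ S, ‖∑ n ∈ Finset.Icc 1 N,
              a n * Complex.exp (Complex.I * (t : ℂ) * (Real.log (n : ℝ) : ℂ))‖ ^ 2 := by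
  obtain ⟨N₀, hN₀⟩ := Pool.Agent.H466R2.LVAsym.packaged
  have hlogN : Tendsto (fun N : ℕ => Real.log (N : ℝ)) atTop atTop :=
    Real.tendsto_log_atTop.comp tendsto_natCast_atTop_atTop
  obtain ⟨N₁, hN₁⟩ := eventually_atTop.1 (hlogN.eventually (eventually_ge_atTop (3 : ℝ)))
  suffices hsuff : ∃ N₂ : ℕ, ∀ N : ℕ, N₂ ≤ N → ∀ T : ℝ, (N : ℝ) ≤ T →
      ∃ a : ℕ → ℂ, (∀ n, ‖a n‖ ≤ 1) ∧
        ∃ S : Finset ℝ, (∀ t ∈ S, 0 ≤ t ∧ t ≤ T) ∧
          (∀ t ∈ S, ∀ u ∈ S, t ≠ u → 1 ≤ |t - u|) ∧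
          (S.card : ℝ) ≤ (N : ℝ) ∧
          (1 / 12800 : ℝ) * min T ((N : ℝ) * Real.exp (1 / 1000 * Real.log N / Real.log (Real.log N)))
            * (N : ℝ) ≤ ∑ t ∈ S, ‖∑ n ∈ Finset.Icc 1 N,
              a n * Complex.exp (Complex.I * (t : ℂ) * (Real.log (n : ℝ) : ℂ))‖ ^ 2 by
    obtain ⟨N₂, hN₂⟩ := hsuff
    refine ⟨1 / 1000, 1 / 25600, by norm_num, by norm_num, max N₂ 1, ?_⟩
    intro N hN T hT
    obtain ⟨a, ha, S, hS1, hS2, hS3, hS4⟩ := hN₂ N (le_trans (le_max_left _ _) hN) T hT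
    refine ⟨a, ha, S, hS1, hS2, hS3, le_trans ?_ hS4⟩
    have hN1 : 1 ≤ N := le_trans (le_max_right _ _) hN
    have hNr : (1 : ℝ) ≤ N := by exact_mod_cast hN1
    set E := Real.exp (1 / 1000 * Real.log N / Real.log (Real.log N)) with hE
    have hE0 : 0 < E := Real.exp_pos _
    have hmin : min T ((N : ℝ) * E) = N * min (T / N) E := by
      rw [mul_min_of_nonneg _ _ (by linarith : (0 : ℝ) ≤ N)]
      congr 1
      field_simp
    rw [hmin]
    have hmin0 : 0 ≤ min (T / N) E := le_min (div_nonneg (by linarith) (by linarith)) hE0.le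
    have h1 : (((N : ℝ) + (S.card : ℝ)) * (N : ℝ)) ≤ 2 * N * N := by nlinarith
    have h2 := mul_le_mul_of_nonneg_left h1 hmin0
    nlinarith
  refine ⟨max (max N₀ N₁) 1, ?_⟩
  intro N hN T hT
  have hu := hN₁ N (le_trans (le_trans (le_max_right _ _) (le_max_left _ _)) hN)
  have hN1 : 1 ≤ N := le_trans (le_max_right _ _) hN
  have hmain := hN₀ N (le_trans (le_trans (le_max_left _ _) (le_max_left _ _)) hN)
  have hNr : (1 : ℝ) ≤ N := by exact_mod_cast hN1
  set E := Real.exp (1 / 1000 * Real.log N / Real.log (Real.log N)) with hE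
  have hE1 : 1 ≤ E := by
    rw [hE]
    apply Real.one_le_exp
    have h1 : 0 < Real.log (Real.log N) := Real.log_pos (by linarith)
    have h2 : 0 ≤ 1 / 1000 * Real.log (N : ℝ) := by linarith
    exact div_nonneg h2 h1.le
  set T' := min T ((N : ℝ) * E) with hT'
  have hT'N : (N : ℝ) ≤ T' := by
    rw [hT']
    apply le_min hT
    nlinarith
  by_cases hc : T' < 25 * N
  · -- trivial example
    refine ⟨fun _ => 1, fun _ => by simp, {0}, ?_, ?_, ?_, ?_⟩
    · intro t ht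
      rw [Finset.mem_singleton] at ht
      subst ht
      exact ⟨le_refl _, by linarith⟩
    · intro t ht u hu' htu
      rw [Finset.mem_singleton] at ht hu'
      exact absurd (ht.trans hu'.symm) htu
    · simpa using hNr
    · rw [Finset.sum_singleton]
      have h1 : ∑ n ∈ Finset.Icc 1 N, (1 : ℂ) *
          Complex.exp (Complex.I * ((0 : ℝ) : ℂ) * (Real.log (n : ℝ) : ℂ)) = (N : ℂ) := by
        simp
      rw [h1, Complex.norm_natCast]
      have h2 : T' * N ≤ 25 * N * N := mul_le_mul_of_nonneg_right hc.le (by linarith)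
      nlinarith
  · push Not at hc
    set L := ⌊T' / (25 * N)⌋₊ with hL
    have hT0 : 0 ≤ T' := by linarith
    have hq1 : 1 ≤ T' / (25 * N) := by
      rw [le_div_iff₀ (by positivity)]
      linarith
    have hL1 : 1 ≤ L := Nat.le_floor (by simpa using hq1)
    have hL1r : (1 : ℝ) ≤ L := by exact_mod_cast hL1
    have hLle : (L : ℝ) ≤ T' / (25 * N) := Nat.floor_le (by positivity)
    have hLlt : T' / (25 * N) < L + 1 := Nat.lt_floor_add_one _
    have hLE : (L : ℝ) ≤ E := by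
      refine hLle.trans ?_
      rw [div_le_iff₀ (by positivity)]
      have h1 : T' ≤ N * E := min_le_right _ _
      nlinarith
    obtain ⟨a, ha, S, hS1, hS2, hS3, hS4⟩ := hmain L hL1 hLE
    refine ⟨a, ha, S, ?_, hS2, ?_, ?_⟩
    · intro t ht
      refine ⟨(hS1 t ht).1, (hS1 t ht).2.trans ?_⟩
      rw [le_div_iff₀ (by positivity)] at hLle
      have h1 : T' ≤ T := min_le_left _ _
      nlinarith
    · refine hS3.trans ?_
      have h1 : 1 ≤ E ^ 2 := one_le_pow₀ hE1
      rw [div_le_iff₀ (by positivity)]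
      nlinarith
    · refine le_trans ?_ hS4
      have h1 : T' ≤ 50 * N * L := by
        rw [div_lt_iff₀ (by positivity)] at hLlt
        nlinarith
      have h2 : T' * N ≤ 50 * N * L * N := mul_le_mul_of_nonneg_right h1 (by linarith)
      nlinarith

end Pool.Agent.Results.MP_71ac24_nt.LossFactor
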